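import Pool.Agent.TH194.MR.SupLow

/-!
# Elliptic curves with full 2-torsion and good reduction outside `6 n`, for almost all `n`

For almost all integers `n` every elliptic curve over `ℚ` with full rational 2-torsion and good
reduction outside `6 n` is a quadratic twist of a curve of small conductor, and its `j`-invariant
has a very small height. The size of the exceptional set is determined: up to `ε` it is
`N Y ^ (-1/3)` when the conductor is bounded by `Y`.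
-/

set_option autoImplicit false

namespace Pool.Agent.Results.MP_07b2d0_nt.TwistsOfSmallConductor

/-- the discriminant `D = 4a³ - 27b²` of the model `y² = x³ - a x - b` -/
def Disc (a b : ℤ) : ℤ := 4 * a ^ 3 - 27 * b ^ 2

/-- the model `y² = x³ - a x - b` is an elliptic curve (`D ≠ 0`) and it is minimal: `|D|` is
smallest among the integral models `y² = x³ - a' x - b'`, `a' = u⁴ a`, `b' = u⁶ b`, `u ∈ ℚ^×` -/
def IsMinimal (a b : ℤ) : Prop :=
  Disc a b ≠ 0 ∧ ∀ (u : ℚ) (a' b' : ℤ), u ≠ 0 → (a' : ℚ) = u ^ 4 * a → (b' : ℚ) = u ^ 6 * b →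
    |Disc a b| ≤ |Disc a' b'|

/-- all 2-torsion points are rational: `x³ - a x - b` splits over `ℚ` -/
def FullTwoTorsion (a b : ℤ) : Prop :=
  ∃ r₁ r₂ r₃ : ℚ, ∀ x : ℚ, x ^ 3 - a * x - b = (x - r₁) * (x - r₂) * (x - r₃)

/-- good reduction outside `6 n`: every prime `p ≥ 5` dividing the discriminant divides `n` -/
def GoodOutside (n : ℕ) (a b : ℤ) : Prop :=
  ∀ p : ℕ, p.Prime → 5 ≤ p → (p : ℤ) ∣ Disc a b → p ∣ n

/-- the prime-to-6 part of the conductor of a minimal model: the product over the primes `p ≥ 5`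
dividing `D` of `p` (node: `p ∤ a`) or `p²` (cusp: `p ∣ a`) -/
def Cond6 (a b : ℤ) : ℕ :=
  ∏ p ∈ (Disc a b).natAbs.primeFactors.filter (fun p => 5 ≤ p), if (p : ℤ) ∣ a then p ^ 2 else p

/-- the `j`-invariant `1728 · 4a³ / D` -/
def jInv (a b : ℤ) : ℚ := 6912 * (a : ℚ) ^ 3 / (Disc a b : ℚ)

/-- the logarithmic height of a rational number -/
noncomputable def height (q : ℚ) : ℝ := Real.log (max |(q.num : ℝ)| (q.den : ℝ))

/-- `y² = x³ - a x - b` is the quadratic twist by some `d ∈ ℚ^×` of a minimal model whose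
prime-to-6 conductor is at most `Y` -/
def TwistOfSmall (Y : ℝ) (a b : ℤ) : Prop :=
  ∃ (d : ℚ) (a' b' : ℤ), d ≠ 0 ∧ IsMinimal a' b' ∧ (a : ℚ) = d ^ 2 * a' ∧ (b : ℚ) = d ^ 3 * b' ∧
    (Cond6 a' b' : ℝ) ≤ Y

/-- every curve with full 2-torsion and good reduction outside `6 n` is a twist of a curve of
prime-to-6 conductor at most `Y` and has a `j`-invariant of height `≤ exp (4000 (3 + log Y)⁶)` -/
def Regular (Y : ℝ) (n : ℕ) : Prop :=
  ∀ a b : ℤ, IsMinimal a b → FullTwoTorsion a b → GoodOutside n a b →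
    TwistOfSmall Y a b ∧ height (jInv a b) ≤ Real.exp (4000 * (3 + Real.log Y) ^ 6)

/-- some curve with full 2-torsion and good reduction outside `6 n` is not a twist of a curve of
prime-to-6 conductor at most `Y` -/
def HasLargeTwist (Y : ℝ) (n : ℕ) : Prop :=
  ∃ a b : ℤ, IsMinimal a b ∧ FullTwoTorsion a b ∧ GoodOutside n a b ∧ ¬ TwistOfSmall Y a b

/-- **Main theorem.** (1) At most `C N Y ^ (-(1/3 - ε))` of the `n ≤ N` are not regular.
(2) At least `c N ^ (1 - ε) Y ^ (-1/3)` of the `n ≤ N` have a curve with full 2-torsion, good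
reduction outside `6 n` and no twist of prime-to-6 conductor at most `Y`, if
`K Y ^ (1 + ε) ≤ N`. -/
theorem result :
    (∀ ε : ℝ, 0 < ε → ε < 1 / 3 → ∃ C : ℝ, ∀ (N : ℕ) (Y : ℝ), 1 ≤ Y →
      (({n : ℕ | 1 ≤ n ∧ n ≤ N ∧ ¬ Regular Y n}.ncard : ℕ) : ℝ) ≤
        C * N * Y ^ (-(1 / 3 - ε))) ∧
    ∀ ε : ℝ, 0 < ε → ε ≤ 1 → ∃ c K : ℝ, 0 < c ∧ 0 < K ∧
      ∀ (N : ℕ) (Y : ℝ), 1 ≤ Y → K * Y ^ (1 + ε) ≤ N →
        c * (N : ℝ) ^ (1 - ε) * Y ^ (-(1 / 3) : ℝ) ≤
          (({n : ℕ | 1 ≤ n ∧ n ≤ N ∧ HasLargeTwist Y n}.ncard : ℕ) : ℝ) := by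
  classical
  constructor
  · intro ε hε hε3
    obtain ⟨C, -, h⟩ := Pool.Agent.TH194.MR.few_support ε hε hε3
    refine ⟨C, fun N Y hY => ?_⟩
    have hfin : {n : ℕ | 1 ≤ n ∧ n ≤ N ∧ ¬ Regular Y n}.Finite := by
      refine (Set.finite_Icc 1 N).subset ?_
      rintro n ⟨h1, h2, -⟩
      exact ⟨h1, h2⟩
    rw [Set.ncard_eq_toFinset_card _ hfin]
    refine h N Y hY _ (fun n hn => ?_)
    rw [Set.Finite.mem_toFinset] at hn
    obtain ⟨h1, h2, h3⟩ := hn
    exact ⟨h1, h2, Pool.Agent.TH194.MR.reg_or h1 hY h3⟩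
  · intro ε hε hε1
    obtain ⟨c, K, hc, hK, h⟩ := Pool.Agent.TH194.MR.many_support ε hε hε1
    refine ⟨c, K, hc, hK, fun N Y hY hNY => ?_⟩
    obtain ⟨E, hE1, hE2⟩ := h N Y hY hNY
    refine hE2.trans ?_
    have hfin : {n : ℕ | 1 ≤ n ∧ n ≤ N ∧ HasLargeTwist Y n}.Finite := by
      refine (Set.finite_Icc 1 N).subset ?_
      rintro n ⟨h1, h2, -⟩
      exact ⟨h1, h2⟩
    have hsub : (E : Set ℕ) ⊆ {n : ℕ | 1 ≤ n ∧ n ≤ N ∧ HasLargeTwist Y n} := by
      intro n hn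
      obtain ⟨h1, h2, s, h3, h4, h5⟩ := hE1 n hn
      refine ⟨h1, h2, ?_⟩
      have h6 := Pool.Agent.TH194.MR.not_tw h3 h4 h5
      unfold Pool.Agent.TH194.MR.TwS at h6
      by_contra hcon
      refine h6 fun a b g1 g2 g3 => ?_
      by_contra hno
      exact hcon ⟨a, b, g1, g2, g3, hno⟩
    have h7 := Set.ncard_le_ncard hsub hfin
    rw [Set.ncard_coe_finset] at h7
    exact_mod_cast h7

end Pool.Agent.Results.MP_07b2d0_nt.TwistsOfSmallConductor
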